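import Pool.Agent.H479R3.RC10

set_option autoImplicit false

open Filter Topology Set

namespace Pool.Agent.Results.MP_36375e_gt.HellyNotEmbeddable

open Pool.Agent.H479R3.RC

/-- The Helly space: all non-decreasing functions from the unit interval to itself, with the
topology of pointwise convergence (the subspace topology of the product). -/
abbrev Helly : Type := {f : unitInterval → unitInterval // Monotone f}

/-- Scattered continuity: every nonempty subset `A` has a point of continuity of `f|A`. -/
def ScatteredlyContinuous (f : (ℕ → ℕ) → ℝ) : Prop :=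
  ∀ A : Set (ℕ → ℕ), A.Nonempty → ∃ a ∈ A, ContinuousWithinAt f A a

/-- There is a continuous injection of Baire space into the open unit interval. -/
theorem exists_pi_Ioo : ∃ p : (ℕ → ℕ) → ℝ, Continuous p ∧ Function.Injective p ∧
    ∀ y, p y ∈ Ioo (0 : ℝ) 1 := by
  obtain ⟨p, hp, hpi⟩ := exists_pi
  refine ⟨fun y => Real.exp (p y) / (1 + Real.exp (p y)), ?_, ?_, ?_⟩
  · exact (Real.continuous_exp.comp hp).div (continuous_const.add (Real.continuous_exp.comp hp))
      (fun y => by positivity)
  · intro y z h
    apply hpi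
    apply Real.exp_injective
    have h1 : 0 < Real.exp (p y) := Real.exp_pos _
    have h2 : 0 < Real.exp (p z) := Real.exp_pos _
    have h3 : Real.exp (p y) / (1 + Real.exp (p y)) = Real.exp (p z) / (1 + Real.exp (p z)) := h
    rw [div_eq_div_iff (by positivity) (by positivity)] at h3
    nlinarith
  · intro y
    have h1 : 0 < Real.exp (p y) := Real.exp_pos _
    refine ⟨by positivity, ?_⟩
    rw [div_lt_one (by positivity)]
    linarith

/-- Restriction of a monotone function on the line with values in `[0,1]` to a point of the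
Helly space. -/
noncomputable def rest (g : Mon) : Helly :=
  ⟨fun s => ⟨(g : ℝ → ℝ) s, g.2.2 s⟩, fun _ _ h => g.2.1 h⟩

theorem continuous_rest : Continuous rest := by
  refine Continuous.subtype_mk ?_ _
  refine continuous_pi fun s => ?_
  refine Continuous.subtype_mk ?_ _
  exact (continuous_apply (s : ℝ)).comp continuous_subtype_val

/-- **Negative answer to Q1**: no compact set of scatteredly continuous real functions on Baire
space, with the topology of pointwise convergence, is homeomorphic to the Helly space. -/
theorem result : ¬ ∃ T : Set ((ℕ → ℕ) → ℝ), IsCompact T ∧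
    (∀ g ∈ T, ScatteredlyContinuous g) ∧ Nonempty (Helly ≃ₜ T) := by
  classical
  rintro ⟨T, -, hTSC, ⟨φ⟩⟩
  obtain ⟨p, hpc, hpi, hp01⟩ := exists_pi_Ioo
  let E : (ℕ → ℕ) → (ℝ → ℝ) → ℝ := fun y g =>
    if h : g ∈ Mon then (φ (rest ⟨g, h⟩) : (ℕ → ℕ) → ℝ) y else 0
  have hEval : ∀ g (hg : g ∈ Mon) y, E y g = (φ (rest ⟨g, hg⟩) : (ℕ → ℕ) → ℝ) y := by
    intro g hg y
    simp only [E, dif_pos hg]
  refine main_contra (E := E) ?_ ?_ hpc hpi ?_
  · intro y
    rw [continuousOn_iff_continuous_domRestrict]
    have h1 : Set.domRestrict Mon (E y) = fun g : Mon => (φ (rest g) : (ℕ → ℕ) → ℝ) y := by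
      funext g
      exact hEval g g.2 y
    rw [h1]
    exact (continuous_apply y).comp
      (continuous_subtype_val.comp (φ.continuous.comp continuous_rest))
  · intro g hg A hA
    have h1 : (fun y => E y g) = (φ (rest ⟨g, hg⟩) : (ℕ → ℕ) → ℝ) := by
      funext y
      exact hEval g hg y
    rw [h1]
    exact hTSC _ (φ (rest ⟨g, hg⟩)).2 A hA
  · intro y
    by_contra hno
    push Not at hno
    have m0 : st1 (p y) 1 0 ∈ Mon := st1_mem le_rfl zero_le_one
    have m1 : st1 (p y) 1 1 ∈ Mon := st1_mem zero_le_one le_rfl
    have h1 : φ (rest ⟨_, m0⟩) = φ (rest ⟨_, m1⟩) := by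
      apply Subtype.ext
      funext a
      rw [← hEval _ m0 a, ← hEval _ m1 a]
      exact hno a
    have h2 := congrArg Subtype.val (φ.injective h1)
    have h3 := congrArg Subtype.val (congrFun h2 ⟨p y, (hp01 y).1.le, (hp01 y).2.le⟩)
    simp [rest, st1] at h3

end Pool.Agent.Results.MP_36375e_gt.HellyNotEmbeddable
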